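import Mathlib

set_option autoImplicit false

/-!
# D'Arcais polynomials: the coefficients are not always log-concave

With `s n = σ(n)/n` one has `a_{n,1} = s n`, `a_{n,2} ≤ 6 n` and `a_{n,3} ≥ (n-1)(n-2)/12`, while
`s n` is unbounded.
-/

namespace Pool.Agent.R137.DArcais

open Finset Polynomial

/-- `σ(n)` as a rational number -/
def sg (n : ℕ) : ℚ := ((ArithmeticFunction.sigma 1 n : ℕ) : ℚ)

/-- `s n = ∑_{d ∣ n} 1/d` -/
def s (n : ℕ) : ℚ := ∑ d ∈ n.divisors, (1 : ℚ) / d

/-- The D'Arcais polynomials by recursion. -/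
noncomputable def P : ℕ → Polynomial ℚ
  | 0 => 1
  | (n + 1) => C (1 / ((n : ℚ) + 1)) * (X * ∑ k : Fin (n + 1), C (sg (k.val + 1)) * P (n - k.val))
termination_by n => n
decreasing_by omega

theorem P_zero : P 0 = 1 := by rw [P]

theorem P_rec (n : ℕ) (hn : 1 ≤ n) :
    (n : Polynomial ℚ) * P n =
      X * ∑ k ∈ Finset.Icc 1 n,
        ((ArithmeticFunction.sigma 1 k : ℕ) : Polynomial ℚ) * P (n - k) := by
  obtain ⟨n, rfl⟩ : ∃ m, n = m + 1 := ⟨n - 1, by omega⟩
  rw [P]
  have h1 : ∑ k ∈ Finset.Icc 1 (n + 1),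
      ((ArithmeticFunction.sigma 1 k : ℕ) : Polynomial ℚ) * P (n + 1 - k) =
      ∑ k : Fin (n + 1), C (sg (k.val + 1)) * P (n - k.val) := by
    rw [Fin.sum_univ_eq_sum_range (fun k => C (sg (k + 1)) * P (n - k)) (n + 1)]
    symm
    refine Finset.sum_bij (fun k _ => k + 1) ?_ ?_ ?_ ?_
    · intro k hk
      simp only [Finset.mem_range] at hk
      simp only [Finset.mem_Icc]
      omega
    · intro a _ b _ h
      omega
    · intro b hb
      simp only [Finset.mem_Icc] at hb
      exact ⟨b - 1, by simp only [Finset.mem_range]; omega, by omega⟩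
    · intro k hk
      rw [sg, C_eq_natCast]
      congr 2
      omega
  rw [h1, ← mul_assoc, ← C_eq_natCast, ← C_mul]
  have h2 : ((n + 1 : ℕ) : ℚ) * (1 / ((n : ℚ) + 1)) = 1 := by
    push_cast
    field_simp
  rw [h2, C_1, one_mul]

theorem coeff_succ (n k : ℕ) (hn : 1 ≤ n) :
    (n : ℚ) * (P n).coeff (k + 1) = ∑ j ∈ Finset.Icc 1 n, sg j * (P (n - j)).coeff k := by
  have h := congrArg (fun p => Polynomial.coeff p (k + 1)) (P_rec n hn)
  simp only [coeff_X_mul, finsetSum_coeff] at h
  rw [← C_eq_natCast, coeff_C_mul] at h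
  rw [h]
  refine Finset.sum_congr rfl fun j _ => ?_
  rw [← C_eq_natCast, coeff_C_mul, sg]

theorem coeff_zero (n : ℕ) (hn : 1 ≤ n) : (P n).coeff 0 = 0 := by
  have h := congrArg (fun p => Polynomial.coeff p 0) (P_rec n hn)
  simp only [coeff_X_mul_zero] at h
  rw [← C_eq_natCast, coeff_C_mul] at h
  have : (n : ℚ) ≠ 0 := by positivity
  exact (mul_eq_zero.1 h).resolve_left this

theorem sg_eq (n : ℕ) (_hn : 1 ≤ n) : sg n = n * s n := by
  rw [sg, s, ArithmeticFunction.sigma_one_apply, ← Nat.sum_div_divisors, Finset.mul_sum]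
  push_cast
  refine Finset.sum_congr rfl fun d hd => ?_
  have hd' := Nat.dvd_of_mem_divisors hd
  rw [Nat.cast_div hd']
  · ring
  · have := Nat.pos_of_mem_divisors hd
    positivity

theorem s_nonneg (n : ℕ) : 0 ≤ s n := Finset.sum_nonneg fun d _ => by positivity

theorem one_le_s (n : ℕ) (hn : 1 ≤ n) : 1 ≤ s n := by
  have : (1 : ℚ) / (1 : ℕ) ≤ s n := by
    refine Finset.single_le_sum (f := fun d : ℕ => (1 : ℚ) / d) (fun d _ => by positivity) ?_
    rw [Nat.mem_divisors]
    exact ⟨one_dvd _, by omega⟩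
  simpa using this

theorem le_sg (n : ℕ) (hn : 1 ≤ n) : (n : ℚ) ≤ sg n := by
  rw [sg_eq n hn]
  have := one_le_s n hn
  have h2 : (0 : ℚ) ≤ n := by positivity
  nlinarith

theorem coeff_one (n : ℕ) (hn : 1 ≤ n) : (P n).coeff 1 = s n := by
  have h := coeff_succ n 0 hn
  rw [Finset.sum_eq_single n] at h
  · rw [Nat.sub_self, P_zero, coeff_one_zero, mul_one, sg_eq n hn] at h
    have : (n : ℚ) ≠ 0 := by positivity
    exact mul_left_cancel₀ this h
  · intro j hj hjn
    simp only [Finset.mem_Icc] at hj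
    rw [coeff_zero _ (by omega), mul_zero]
  · intro h
    exfalso
    apply h
    simp only [Finset.mem_Icc]
    omega

theorem coeff_zero_succ (k : ℕ) : (P 0).coeff (k + 1) = 0 := by
  rw [P_zero, ← C_1, coeff_C_succ]

/-- harmonic numbers -/
def H (d : ℕ) : ℚ := ∑ e ∈ Finset.Icc 1 d, (1 : ℚ) / e

theorem H_succ (d : ℕ) : H (d + 1) = H d + 1 / ((d : ℚ) + 1) := by
  unfold H
  rw [Finset.sum_Icc_succ_top (by omega)]
  push_cast
  ring

theorem H_nonneg (d : ℕ) : 0 ≤ H d := Finset.sum_nonneg fun _ _ => by positivity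

theorem s_sq_le (j : ℕ) : s j ^ 2 ≤ ∑ d ∈ j.divisors, 2 * (H d / d) := by
  have h1 : s j ^ 2 = ∑ d ∈ j.divisors, ∑ e ∈ j.divisors, (1 : ℚ) / d * (1 / e) := by
    rw [sq, s, Finset.sum_mul_sum]
  have h2 : ∀ d e : ℕ, (1 : ℚ) / d * (1 / e) ≤
      (if e ≤ d then (1 : ℚ) / d * (1 / e) else 0) + (if d ≤ e then (1 : ℚ) / d * (1 / e) else 0) := by
    intro d e
    have h0 : (0 : ℚ) ≤ 1 / d * (1 / e) := by positivity
    rcases le_total e d with h | h
    · rw [if_pos h]
      split_ifs <;> linarith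
    · rw [if_pos h]
      split_ifs <;> linarith
  have h3 : ∀ d : ℕ, ∑ e ∈ j.divisors, (if e ≤ d then (1 : ℚ) / d * (1 / e) else 0) ≤ H d / d := by
    intro d
    rw [← Finset.sum_filter, ← Finset.mul_sum]
    have : ∑ e ∈ j.divisors.filter (fun e => e ≤ d), (1 : ℚ) / e ≤ H d := by
      unfold H
      apply Finset.sum_le_sum_of_subset_of_nonneg
      · intro e he
        simp only [Finset.mem_filter] at he
        have := Nat.pos_of_mem_divisors he.1
        simp only [Finset.mem_Icc]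
        omega
      · intro _ _ _
        positivity
    calc (1 : ℚ) / d * ∑ e ∈ j.divisors.filter (fun e => e ≤ d), (1 : ℚ) / e
        ≤ 1 / d * H d := mul_le_mul_of_nonneg_left this (by positivity)
      _ = H d / d := by ring
  have h4 : ∑ d ∈ j.divisors, ∑ e ∈ j.divisors, (if d ≤ e then (1 : ℚ) / d * (1 / e) else 0) =
      ∑ d ∈ j.divisors, ∑ e ∈ j.divisors, (if e ≤ d then (1 : ℚ) / d * (1 / e) else 0) := by
    rw [Finset.sum_comm]
    refine Finset.sum_congr rfl fun d _ => Finset.sum_congr rfl fun e _ => ?_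
    rw [mul_comm]
  calc s j ^ 2 = ∑ d ∈ j.divisors, ∑ e ∈ j.divisors, (1 : ℚ) / d * (1 / e) := h1
    _ ≤ ∑ d ∈ j.divisors, ∑ e ∈ j.divisors,
        ((if e ≤ d then (1 : ℚ) / d * (1 / e) else 0) +
          (if d ≤ e then (1 : ℚ) / d * (1 / e) else 0)) :=
        Finset.sum_le_sum fun d _ => Finset.sum_le_sum fun e _ => h2 d e
    _ = ∑ d ∈ j.divisors, ∑ e ∈ j.divisors, (if e ≤ d then (1 : ℚ) / d * (1 / e) else 0) +
        ∑ d ∈ j.divisors, ∑ e ∈ j.divisors, (if d ≤ e then (1 : ℚ) / d * (1 / e) else 0) := by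
        simp only [Finset.sum_add_distrib]
    _ = 2 * ∑ d ∈ j.divisors, ∑ e ∈ j.divisors, (if e ≤ d then (1 : ℚ) / d * (1 / e) else 0) := by
        rw [h4]; ring
    _ ≤ 2 * ∑ d ∈ j.divisors, H d / d := by
        apply mul_le_mul_of_nonneg_left _ (by norm_num)
        exact Finset.sum_le_sum fun d _ => h3 d
    _ = ∑ d ∈ j.divisors, 2 * (H d / d) := by rw [Finset.mul_sum]

theorem sum_H (n : ℕ) : ∑ d ∈ Finset.Icc 1 (n + 1), H d / (d : ℚ) ^ 2 ≤
    3 - (H (n + 1) + 1) / ((n : ℚ) + 1) := by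
  induction n with
  | zero =>
    simp [H]
    norm_num
  | succ n ih =>
    rw [Finset.sum_Icc_succ_top (by omega)]
    have h0 : (0 : ℚ) ≤ n := by positivity
    have h1 := H_nonneg (n + 1)
    have h2 := H_nonneg (n + 1 + 1)
    have h3 : H (n + 1) = H (n + 1 + 1) - 1 / ((n : ℚ) + 1 + 1) := by
      rw [H_succ (n + 1)]
      push_cast
      ring
    have h4 : H (n + 1 + 1) / (((n + 1 + 1 : ℕ) : ℚ)) ^ 2 ≤
        (H (n + 1) + 1) / ((n : ℚ) + 1) - (H (n + 1 + 1) + 1) / (((n + 1 : ℕ) : ℚ) + 1) := by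
      rw [h3]
      push_cast
      rw [div_sub_div _ _ (by positivity) (by positivity), div_le_div_iff₀ (by positivity)
        (by positivity)]
      have e : (H (n + 1 + 1) - 1 / ((n : ℚ) + 1 + 1) + 1) * ((n : ℚ) + 1 + 1) =
          H (n + 1 + 1) * ((n : ℚ) + 1 + 1) + (n + 1) := by
        field_simp
        ring
      rw [e]
      have h5 : 0 ≤ H (n + 1 + 1) * ((n : ℚ) + 1 + 1) := by positivity
      nlinarith
    linarith

theorem sum_H' (n : ℕ) : ∑ d ∈ Finset.Icc 1 n, H d / (d : ℚ) ^ 2 ≤ 3 := by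
  rcases Nat.eq_zero_or_pos n with h | h
  · subst h
    simp
  · obtain ⟨m, rfl⟩ : ∃ m, n = m + 1 := ⟨n - 1, by omega⟩
    have h1 := sum_H m
    have h2 := H_nonneg (m + 1)
    have h3 : 0 ≤ (H (m + 1) + 1) / ((m : ℚ) + 1) := by positivity
    linarith

/-- partial sums -/
theorem sum_s_sq (n : ℕ) : ∑ j ∈ Finset.Icc 1 n, s j ^ 2 ≤ 6 * n := by
  calc ∑ j ∈ Finset.Icc 1 n, s j ^ 2 ≤ ∑ j ∈ Finset.Icc 1 n, ∑ d ∈ j.divisors, 2 * (H d / d) :=
        Finset.sum_le_sum fun j _ => s_sq_le j
    _ = ∑ j ∈ Finset.Icc 1 n, ∑ d ∈ Finset.Icc 1 n, (if d ∣ j then 2 * (H d / d) else 0) := by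
        refine Finset.sum_congr rfl fun j hj => ?_
        simp only [Finset.mem_Icc] at hj
        rw [← Finset.sum_filter]
        refine Finset.sum_congr ?_ fun _ _ => rfl
        ext d
        simp only [Nat.mem_divisors, Finset.mem_filter, Finset.mem_Icc]
        constructor
        · rintro ⟨h1, h2⟩
          have := Nat.le_of_dvd (by omega) h1
          have := Nat.pos_of_dvd_of_pos h1 (by omega)
          exact ⟨by omega, h1⟩
        · rintro ⟨_, h1⟩
          exact ⟨h1, by omega⟩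
    _ = ∑ d ∈ Finset.Icc 1 n, ∑ j ∈ Finset.Icc 1 n, (if d ∣ j then 2 * (H d / d) else 0) :=
        Finset.sum_comm
    _ ≤ ∑ d ∈ Finset.Icc 1 n, (n : ℚ) * 2 * (H d / (d : ℚ) ^ 2) := by
        refine Finset.sum_le_sum fun d hd => ?_
        simp only [Finset.mem_Icc] at hd
        rw [← Finset.sum_filter, Finset.sum_const, nsmul_eq_mul]
        have h1 : ((Finset.Icc 1 n).filter (fun j => d ∣ j)).card = n / d := by
          rw [← Nat.Ioc_filter_dvd_card_eq_div]
          rfl
        rw [h1]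
        have h2 : ((n / d : ℕ) : ℚ) ≤ n / d := Nat.cast_div_le
        have h3 := H_nonneg d
        have hd0 : (0 : ℚ) < d := by exact_mod_cast hd.1
        calc ((n / d : ℕ) : ℚ) * (2 * (H d / d)) ≤ (n / d : ℚ) * (2 * (H d / d)) :=
              mul_le_mul_of_nonneg_right h2 (by positivity)
          _ = n * 2 * (H d / (d : ℚ) ^ 2) := by
              field_simp
    _ = n * 2 * ∑ d ∈ Finset.Icc 1 n, H d / (d : ℚ) ^ 2 := by rw [Finset.mul_sum]
    _ ≤ n * 2 * 3 := mul_le_mul_of_nonneg_left (sum_H' n) (by positivity)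
    _ = 6 * n := by ring

theorem coeff_two_le (n : ℕ) (hn : 1 ≤ n) : (P n).coeff 2 ≤ 6 * n := by
  have h := coeff_succ n 1 hn
  have hpos : (0 : ℚ) < n := by positivity
  have h1 : ∑ j ∈ Finset.Icc 1 n, sg j * (P (n - j)).coeff 1 ≤ n * (6 * n) := by
    calc ∑ j ∈ Finset.Icc 1 n, sg j * (P (n - j)).coeff 1
        ≤ ∑ j ∈ Finset.Icc 1 n, n * ((s j ^ 2 + (if j = n then 0 else s (n - j) ^ 2)) / 2) := by
          refine Finset.sum_le_sum fun j hj => ?_
          simp only [Finset.mem_Icc] at hj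
          by_cases hjn : j = n
          · subst hjn
            rw [Nat.sub_self, coeff_zero_succ, mul_zero]
            simp only [if_true]
            positivity
          · rw [if_neg hjn, coeff_one _ (by omega), sg_eq j hj.1]
            have hj' : (j : ℚ) ≤ n := by exact_mod_cast hj.2
            have h1 := s_nonneg j
            have h2 := s_nonneg (n - j)
            have h3 : (0 : ℚ) ≤ j := by positivity
            calc (j : ℚ) * s j * s (n - j) = j * (s j * s (n - j)) := by ring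
              _ ≤ n * (s j * s (n - j)) := by
                  apply mul_le_mul_of_nonneg_right hj' (by positivity)
              _ ≤ n * ((s j ^ 2 + s (n - j) ^ 2) / 2) := by
                  apply mul_le_mul_of_nonneg_left _ (by positivity)
                  nlinarith [sq_nonneg (s j - s (n - j))]
      _ = n * ((∑ j ∈ Finset.Icc 1 n, s j ^ 2 +
            ∑ j ∈ Finset.Icc 1 n, (if j = n then 0 else s (n - j) ^ 2)) / 2) := by
          rw [← Finset.mul_sum, ← Finset.sum_div, Finset.sum_add_distrib]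
      _ ≤ n * (6 * n) := by
          apply mul_le_mul_of_nonneg_left _ (by positivity)
          have h2 : ∑ j ∈ Finset.Icc 1 n, (if j = n then 0 else s (n - j) ^ 2) ≤
              ∑ j ∈ Finset.Icc 1 n, s j ^ 2 := by
            have e : ∀ j, (if j = n then 0 else s (n - j) ^ 2) =
                (if j ≠ n then s (n - j) ^ 2 else 0) := by
              intro j
              by_cases hj : j = n <;> simp [hj]
            simp only [e]
            rw [← Finset.sum_filter]
            have hbij : ∑ j ∈ (Finset.Icc 1 n).filter (fun j => j ≠ n), s (n - j) ^ 2 =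
                ∑ j ∈ (Finset.Icc 1 n).filter (fun j => j ≠ n), s j ^ 2 := by
              refine Finset.sum_nbij' (fun j => n - j) (fun j => n - j) ?_ ?_ ?_ ?_ ?_
              · intro j hj
                simp only [Finset.mem_filter, Finset.mem_Icc] at hj ⊢
                omega
              · intro j hj
                simp only [Finset.mem_filter, Finset.mem_Icc] at hj ⊢
                omega
              · intro j hj
                simp only [Finset.mem_filter, Finset.mem_Icc] at hj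
                omega
              · intro j hj
                simp only [Finset.mem_filter, Finset.mem_Icc] at hj
                omega
              · intro j hj
                rfl
            rw [hbij]
            exact Finset.sum_le_sum_of_subset_of_nonneg (Finset.filter_subset _ _)
              fun _ _ _ => by positivity
          have h3 := sum_s_sq n
          linarith
  rw [← h] at h1
  exact le_of_mul_le_mul_left h1 hpos

theorem le_coeff_two (n : ℕ) : ((n : ℚ) - 1) / 2 ≤ (P n).coeff 2 := by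
  rcases Nat.eq_zero_or_pos n with h0 | h0
  · subst h0
    rw [coeff_zero_succ]
    norm_num
  have h := coeff_succ n 1 h0
  have hpos : (0 : ℚ) < n := by positivity
  have h1 : ∑ j ∈ Finset.Icc 1 n, (if j = n then (0 : ℚ) else j) ≤
      ∑ j ∈ Finset.Icc 1 n, sg j * (P (n - j)).coeff 1 := by
    refine Finset.sum_le_sum fun j hj => ?_
    simp only [Finset.mem_Icc] at hj
    split_ifs with hjn
    · subst hjn
      rw [Nat.sub_self, coeff_zero_succ, mul_zero]
    · rw [coeff_one _ (by omega)]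
      have h2 := one_le_s (n - j) (by omega)
      have h3 := le_sg j hj.1
      have h4 : (0 : ℚ) ≤ j := by positivity
      nlinarith
  have h2 : ∀ m : ℕ, 1 ≤ m → ∑ j ∈ Finset.Icc 1 m, (if j = m then (0 : ℚ) else j) = m * (m - 1) / 2 := by
    intro m hm
    obtain ⟨m, rfl⟩ : ∃ k, m = k + 1 := ⟨m - 1, by omega⟩
    rw [Finset.sum_Icc_succ_top (by omega), if_pos rfl, add_zero]
    have h3 : ∑ j ∈ Finset.Icc 1 m, (if j = m + 1 then (0 : ℚ) else j) = ∑ j ∈ Finset.Icc 1 m, (j : ℚ) := by
      refine Finset.sum_congr rfl fun j hj => ?_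
      simp only [Finset.mem_Icc] at hj
      rw [if_neg (by omega)]
    rw [h3]
    clear h3 hm
    induction m with
    | zero => simp
    | succ m ih =>
      rw [Finset.sum_Icc_succ_top (by omega), ih]
      push_cast
      ring
  rw [h2 n h0, ← h] at h1
  have h3 : (n : ℚ) * ((n - 1) / 2) ≤ n * (P n).coeff (1 + 1) := by
    calc (n : ℚ) * ((n - 1) / 2) = n * (n - 1) / 2 := by ring
      _ ≤ _ := h1
  exact le_of_mul_le_mul_left h3 hpos

theorem coeff_two_nonneg (n : ℕ) : 0 ≤ (P n).coeff 2 := by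
  rcases Nat.eq_zero_or_pos n with h0 | h0
  · subst h0
    rw [coeff_zero_succ]
  · have h1 := le_coeff_two n
    have h2 : (1 : ℚ) ≤ n := by exact_mod_cast h0
    linarith

theorem le_coeff_three (n : ℕ) (hn : 1 ≤ n) :
    ((n : ℚ) - 1) * (n - 2) / 12 ≤ (P n).coeff 3 := by
  have h := coeff_succ n 2 hn
  have hpos : (0 : ℚ) < n := by positivity
  have h1 : ∑ j ∈ Finset.Icc 1 n, (if j = n then (0 : ℚ) else j * ((n : ℚ) - j - 1) / 2) ≤
      ∑ j ∈ Finset.Icc 1 n, sg j * (P (n - j)).coeff 2 := by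
    refine Finset.sum_le_sum fun j hj => ?_
    simp only [Finset.mem_Icc] at hj
    split_ifs with hjn
    · subst hjn
      rw [Nat.sub_self, coeff_zero_succ, mul_zero]
    · have h2 := le_coeff_two (n - j)
      have h2' := coeff_two_nonneg (n - j)
      have h3 := le_sg j hj.1
      have h4 : (0 : ℚ) ≤ j := by positivity
      rw [Nat.cast_sub hj.2] at h2
      calc (j : ℚ) * ((n : ℚ) - j - 1) / 2 = j * (((n : ℚ) - j - 1) / 2) := by ring
        _ ≤ j * (P (n - j)).coeff 2 := mul_le_mul_of_nonneg_left h2 h4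
        _ ≤ sg j * (P (n - j)).coeff 2 := mul_le_mul_of_nonneg_right h3 h2'
  have h2 : ∑ j ∈ Finset.Icc 1 n, (if j = n then (0 : ℚ) else j * ((n : ℚ) - j - 1) / 2) =
      n * (n - 1) * (n - 2) / 12 := by
    obtain ⟨m, rfl⟩ : ∃ k, n = k + 1 := ⟨n - 1, by omega⟩
    rw [Finset.sum_Icc_succ_top (by omega), if_pos rfl, add_zero]
    have h3 : ∀ (x : ℚ) (m : ℕ), ∑ j ∈ Finset.Icc 1 m, (j : ℚ) * (x - j - 1) / 2 =
        (x - 1) * (m * (m + 1)) / 4 - m * (m + 1) * (2 * m + 1) / 12 := by
      intro x m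
      induction m with
      | zero => simp
      | succ m ih =>
        rw [Finset.sum_Icc_succ_top (by omega), ih]
        push_cast
        ring
    have h4 : ∑ j ∈ Finset.Icc 1 m, (if j = m + 1 then (0 : ℚ)
        else j * (((m + 1 : ℕ) : ℚ) - j - 1) / 2) =
        ∑ j ∈ Finset.Icc 1 m, (j : ℚ) * (((m + 1 : ℕ) : ℚ) - j - 1) / 2 := by
      refine Finset.sum_congr rfl fun j hj => ?_
      simp only [Finset.mem_Icc] at hj
      rw [if_neg (by omega)]
    rw [h4, h3]
    push_cast
    ring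
  rw [h2, ← h] at h1
  have h3 : (n : ℚ) * (((n : ℚ) - 1) * (n - 2) / 12) ≤ n * (P n).coeff (2 + 1) := by
    calc (n : ℚ) * (((n : ℚ) - 1) * (n - 2) / 12) = n * (n - 1) * (n - 2) / 12 := by ring
      _ ≤ _ := h1
  exact le_of_mul_le_mul_left h3 hpos

theorem s_unbounded (B : ℚ) : ∃ n : ℕ, 10 ≤ n ∧ B < s n := by
  have h := Real.tendsto_sum_range_one_div_nat_succ_atTop
  obtain ⟨N, hN10, hN⟩ := ((Filter.eventually_ge_atTop 10).and
    (h.eventually_gt_atTop (B : ℝ))).exists
  refine ⟨N.factorial, hN10.trans (Nat.self_le_factorial N), ?_⟩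
  have h1 : B < ∑ i ∈ Finset.range N, (1 : ℚ) / (i + 1) := by
    have : (B : ℝ) < ((∑ i ∈ Finset.range N, (1 : ℚ) / (i + 1) : ℚ) : ℝ) := by
      push_cast
      exact hN
    exact_mod_cast this
  refine lt_of_lt_of_le h1 ?_
  have h2 : ∑ i ∈ Finset.range N, (1 : ℚ) / (i + 1) = ∑ d ∈ Finset.Icc 1 N, (1 : ℚ) / d := by
    refine Finset.sum_bij (fun k _ => k + 1) ?_ ?_ ?_ ?_
    · intro k hk
      simp only [Finset.mem_range] at hk
      simp only [Finset.mem_Icc]
      omega
    · intro a _ b _ h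
      omega
    · intro b hb
      simp only [Finset.mem_Icc] at hb
      exact ⟨b - 1, by simp only [Finset.mem_range]; omega, by omega⟩
    · intro k hk
      push_cast
      rfl
  rw [h2, s]
  apply Finset.sum_le_sum_of_subset_of_nonneg
  · intro d hd
    simp only [Finset.mem_Icc] at hd
    rw [Nat.mem_divisors]
    exact ⟨Nat.dvd_factorial (by omega) hd.2, Nat.factorial_ne_zero N⟩
  · intro _ _ _
    positivity

/-- there is `n` with `a_{n,2}^2 < a_{n,1} a_{n,3}` -/
theorem exists_bad : ∃ n : ℕ, (P n).coeff 2 ^ 2 < (P n).coeff 1 * (P n).coeff 3 := by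
  obtain ⟨n, hn, hs⟩ := s_unbounded 1000
  refine ⟨n, ?_⟩
  have h1 := coeff_two_le n (by omega)
  have h2 := coeff_two_nonneg n
  have h3 := le_coeff_three n (by omega)
  rw [coeff_one n (by omega)]
  have hn' : (10 : ℚ) ≤ n := by exact_mod_cast hn
  have h4 : (P n).coeff 2 ^ 2 ≤ (6 * n) ^ 2 := by
    apply pow_le_pow_left₀ h2 h1
  have h5 : (0 : ℚ) ≤ (n - 1) * (n - 2) / 12 := by
    apply div_nonneg _ (by norm_num)
    apply mul_nonneg <;> linarith
  have h6 : 1000 * (((n : ℚ) - 1) * (n - 2) / 12) ≤ s n * (P n).coeff 3 := by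
    apply mul_le_mul hs.le h3 h5 (s_nonneg n)
  nlinarith

end Pool.Agent.R137.DArcais
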