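import Mathlib

/-!
# Interlacing of roots from an inequality in the upper half plane
-/

set_option autoImplicit false

namespace Pool.Agent.R137.Interl

open Complex ComplexConjugate Filter Topology Polynomial

/-- the total argument of `z - r` over a list of reals -/
noncomputable def theta (a : List ℝ) (z : ℂ) : ℝ := (a.map fun r : ℝ => arg (z - r)).sum

/-- the product of `z - r` over a list of reals -/
noncomputable def prd (a : List ℝ) (z : ℂ) : ℂ := (a.map fun r : ℝ => z - r).prod

theorem theta_cons (r : ℝ) (a : List ℝ) (z : ℂ) : theta (r :: a) z = arg (z - r) + theta a z := by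
  simp [theta]

theorem prd_cons (r : ℝ) (a : List ℝ) (z : ℂ) : prd (r :: a) z = (z - r) * prd a z := by
  simp [prd]

theorem prd_eq (a : List ℝ) (z : ℂ) : prd a z = ‖prd a z‖ * exp (theta a z * I) := by
  induction a with
  | nil => simp [prd, theta]
  | cons r a ih =>
    rw [prd_cons, theta_cons, norm_mul]
    have h1 : z - r = ‖z - r‖ * exp (arg (z - r) * I) := (norm_mul_exp_arg_mul_I (z - r)).symm
    conv_lhs => rw [h1, ih]
    push_cast
    rw [add_mul, Complex.exp_add]
    ring

theorem prd_ne_zero (a : List ℝ) {z : ℂ} (hz : 0 < z.im) : prd a z ≠ 0 := by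
  induction a with
  | nil => simp [prd]
  | cons r a ih =>
    rw [prd_cons]
    refine mul_ne_zero ?_ ih
    intro h
    have := congrArg Complex.im h
    simp at this
    exact hz.ne' this

theorem sin_nonneg (a b : List ℝ) {z : ℂ} (hz : 0 < z.im)
    (h : 0 ≤ (prd b z * conj (prd a z)).im) : 0 ≤ Real.sin (theta b z - theta a z) := by
  have h1 : prd b z * conj (prd a z) =
      ((‖prd b z‖ * ‖prd a z‖ : ℝ) : ℂ) * exp ((theta b z - theta a z : ℝ) * I) := by
    conv_lhs => rw [prd_eq a z, prd_eq b z]
    rw [map_mul, conj_ofReal, ← Complex.exp_conj, map_mul, conj_ofReal, conj_I]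
    push_cast
    rw [sub_mul, Complex.exp_sub, mul_neg, Complex.exp_neg]
    ring
  rw [h1, im_ofReal_mul, Complex.exp_ofReal_mul_I_im] at h
  have h2 : 0 < ‖prd b z‖ * ‖prd a z‖ :=
    mul_pos (norm_pos_iff.2 (prd_ne_zero b hz)) (norm_pos_iff.2 (prd_ne_zero a hz))
  exact nonneg_of_mul_nonneg_right h h2

theorem continuous_theta (a : List ℝ) {ε : ℝ} (hε : 0 < ε) :
    Continuous fun x : ℝ => theta a (x + ε * I) := by
  induction a with
  | nil => simpa [theta] using continuous_const
  | cons r a ih =>
    simp only [theta_cons]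
    refine Continuous.add ?_ ih
    rw [continuous_iff_continuousAt]
    intro x
    refine ContinuousAt.comp (f := fun x : ℝ => ((x : ℂ) + ε * I - r)) (g := arg) ?_ (by fun_prop)
    apply continuousAt_arg
    rw [mem_slitPlane_iff]
    right
    simp [hε.ne']

theorem tendsto_theta_atTop (a : List ℝ) {ε : ℝ} (hε : 0 < ε) :
    Tendsto (fun x : ℝ => theta a (x + ε * I)) atTop (𝓝 0) := by
  induction a with
  | nil => simp [theta]
  | cons r a ih =>
    simp only [theta_cons]
    rw [← add_zero (0 : ℝ)]
    refine Tendsto.add ?_ ih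
    have h1 : Tendsto (fun x : ℝ => arg (1 + ((ε / (x - r) : ℝ) : ℂ) * I)) atTop (𝓝 0) := by
      have h2 : Tendsto (fun x : ℝ => 1 + ((ε / (x - r) : ℝ) : ℂ) * I) atTop (𝓝 1) := by
        have h3 : Tendsto (fun x : ℝ => ε / (x - r)) atTop (𝓝 0) :=
          tendsto_const_nhds.div_atTop (tendsto_atTop_add_const_right _ (-r) tendsto_id)
        have h4 : Tendsto (fun x : ℝ => ((ε / (x - r) : ℝ) : ℂ)) atTop (𝓝 ((0 : ℝ) : ℂ)) :=
          (continuous_ofReal.tendsto 0).comp h3
        have h5 := (h4.mul_const I).const_add 1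
        simpa using h5
      have h6 := (continuousAt_arg (by simp : (1 : ℂ) ∈ slitPlane)).tendsto.comp h2
      rw [arg_one] at h6
      exact h6
    refine h1.congr' ?_
    filter_upwards [eventually_gt_atTop r] with x hx
    have hx' : 0 < x - r := sub_pos.2 hx
    have h2 : (x + ε * I - r : ℂ) = ((x - r : ℝ) : ℂ) * (1 + ((ε / (x - r) : ℝ) : ℂ) * I) := by
      have hc : ((x - r : ℝ) : ℂ) ≠ 0 := by
        rw [Ne, ofReal_eq_zero]
        exact hx'.ne'
      push_cast at hc ⊢
      field_simp
      ring
    rw [h2, arg_real_mul _ hx']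

/-- the basic range statement -/
theorem theta_range (a b : List ℝ) {ε : ℝ} (hε : 0 < ε)
    (h : ∀ z : ℂ, 0 < z.im → 0 ≤ (prd b z * conj (prd a z)).im) (x : ℝ) :
    0 ≤ theta b (x + ε * I) - theta a (x + ε * I) ∧
      theta b (x + ε * I) - theta a (x + ε * I) ≤ Real.pi := by
  set φ : ℝ → ℝ := fun x => theta b (x + ε * I) - theta a (x + ε * I) with hφ
  have hc : Continuous φ := (continuous_theta b hε).sub (continuous_theta a hε)
  have ht : Tendsto φ atTop (𝓝 0) := by
    have := (tendsto_theta_atTop b hε).sub (tendsto_theta_atTop a hε)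
    simpa using this
  have hs : ∀ x, 0 ≤ Real.sin (φ x) := by
    intro x
    have hz : 0 < ((x : ℂ) + ε * I).im := by simpa using hε
    exact sin_nonneg a b hz (h _ hz)
  have hpi := Real.pi_pos
  change 0 ≤ φ x ∧ φ x ≤ Real.pi
  constructor
  · by_contra hcon
    push Not at hcon
    set v := max (φ x / 2) (-(Real.pi / 2)) with hv
    have hv0 : v < 0 := by
      rw [hv, max_lt_iff]
      constructor <;> linarith
    have hv1 : -(Real.pi) < v := lt_of_lt_of_le (by linarith) (le_max_right _ _)
    have hvx : φ x < v := lt_of_lt_of_le (by linarith) (le_max_left _ _)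
    obtain ⟨y, hxy, hy⟩ := ((eventually_ge_atTop x).and (ht.eventually (lt_mem_nhds hv0))).exists
    have hmem : v ∈ Set.Icc (φ x) (φ y) := ⟨hvx.le, hy.le⟩
    obtain ⟨w, _, hw⟩ := intermediate_value_Icc hxy hc.continuousOn hmem
    have := hs w
    rw [hw] at this
    have := Real.sin_neg_of_neg_of_neg_pi_lt hv0 hv1
    linarith
  · by_contra hcon
    push Not at hcon
    set v := min ((φ x + Real.pi) / 2) (3 * Real.pi / 2) with hv
    have hv0 : Real.pi < v := by
      rw [hv, lt_min_iff]
      constructor <;> linarith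
    have hv1 : v < 2 * Real.pi := lt_of_le_of_lt (min_le_right _ _) (by linarith)
    have hvx : v < φ x := lt_of_le_of_lt (min_le_left _ _) (by linarith)
    obtain ⟨y, hxy, hy⟩ := ((eventually_ge_atTop x).and
      (ht.eventually (gt_mem_nhds (hpi.trans hv0)))).exists
    have hmem : v ∈ Set.Icc (φ y) (φ x) := ⟨hy.le, hvx.le⟩
    obtain ⟨w, _, hw⟩ := intermediate_value_Icc' hxy hc.continuousOn hmem
    have h1 := hs w
    rw [hw] at h1
    have h2 : Real.sin (v - 2 * Real.pi) < 0 :=
      Real.sin_neg_of_neg_of_neg_pi_lt (by linarith) (by linarith)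
    rw [Real.sin_sub_two_pi] at h2
    linarith

/-- the number of entries larger than `x` -/
noncomputable def cnt (a : List ℝ) (x : ℝ) : ℕ := a.countP fun r => decide (x < r)

theorem tendsto_theta_zero (a : List ℝ) (x : ℝ) (hx : x ∉ a) :
    Tendsto (fun ε : ℝ => theta a (x + ε * I)) (𝓝[>] 0) (𝓝 (Real.pi * cnt a x)) := by
  induction a with
  | nil => simp [theta, cnt]
  | cons r a ih =>
    simp only [theta_cons]
    have hr : x ≠ r := fun h => hx (by simp [h])
    have ha : x ∉ a := fun h => hx (by simp [h])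
    have e : Real.pi * (cnt (r :: a) x : ℝ) = (if x < r then Real.pi else 0) + Real.pi * cnt a x := by
      unfold cnt
      rw [List.countP_cons]
      push_cast
      by_cases h : x < r <;> simp [h] <;> ring
    rw [e]
    refine Tendsto.add ?_ (ih ha)
    have hbase : Tendsto (fun ε : ℝ => ((x : ℂ) + ε * I - r)) (𝓝[>] 0) (𝓝 ((x - r : ℝ) : ℂ)) := by
      have h1 : Tendsto (fun ε : ℝ => ((x : ℂ) + ε * I - r)) (𝓝 0) (𝓝 ((x : ℂ) + (0 : ℝ) * I - r)) := by
        apply Continuous.tendsto
        fun_prop
      have h2 : ((x : ℂ) + (0 : ℝ) * I - r) = ((x - r : ℝ) : ℂ) := by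
        push_cast
        ring
      rw [h2] at h1
      exact h1.mono_left nhdsWithin_le_nhds
    by_cases h : x < r
    · rw [if_pos h]
      have h3 : (((x - r : ℝ) : ℂ)).re < 0 := by
        rw [ofReal_re]
        linarith
      refine (tendsto_arg_nhdsWithin_im_nonneg_of_re_neg_of_im_zero h3 (ofReal_im _)).comp ?_
      rw [tendsto_nhdsWithin_iff]
      refine ⟨hbase, ?_⟩
      filter_upwards [self_mem_nhdsWithin] with ε hε
      have : (0 : ℝ) < ε := hε
      simpa using this.le
    · rw [if_neg h]
      have h3 : 0 < x - r := by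
        have := lt_of_le_of_ne (not_lt.1 h) hr.symm
        linarith
      have h4 : ((x - r : ℝ) : ℂ) ∈ slitPlane := by
        rw [mem_slitPlane_iff]
        left
        simpa using h3
      have h5 := (continuousAt_arg h4).tendsto.comp hbase
      rw [arg_ofReal_of_nonneg h3.le] at h5
      exact h5

/-- root counting -/
theorem cnt_range (a b : List ℝ)
    (h : ∀ z : ℂ, 0 < z.im → 0 ≤ (prd b z * conj (prd a z)).im) (x : ℝ) (ha : x ∉ a) (hb : x ∉ b) :
    cnt a x ≤ cnt b x ∧ cnt b x ≤ cnt a x + 1 := by
  have h1 := (tendsto_theta_zero b x hb).sub (tendsto_theta_zero a x ha)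
  have hpi := Real.pi_pos
  have h2 : 0 ≤ Real.pi * (cnt b x : ℝ) - Real.pi * cnt a x := by
    refine ge_of_tendsto h1 ?_
    filter_upwards [self_mem_nhdsWithin] with ε hε
    exact (theta_range a b hε h x).1
  have h3 : Real.pi * (cnt b x : ℝ) - Real.pi * cnt a x ≤ Real.pi := by
    refine le_of_tendsto h1 ?_
    filter_upwards [self_mem_nhdsWithin] with ε hε
    exact (theta_range a b hε h x).2
  constructor
  · have : (cnt a x : ℝ) ≤ cnt b x := by
      rw [← mul_sub] at h2
      have := nonneg_of_mul_nonneg_right h2 hpi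
      linarith
    exact_mod_cast this
  · have : (cnt b x : ℝ) ≤ cnt a x + 1 := by
      rw [← mul_sub] at h3
      have := le_of_mul_le_mul_left (h3.trans (mul_one _).ge) hpi
      linarith
    exact_mod_cast this

theorem cnt_ge (a : List ℝ) (ha : a.Pairwise (· ≥ ·)) (i : ℕ) (hi : i < a.length) (x : ℝ)
    (hx : x < a[i]) : i + 1 ≤ cnt a x := by
  induction a generalizing i with
  | nil => simp at hi
  | cons r a ih =>
    rw [List.pairwise_cons] at ha
    unfold cnt
    rw [List.countP_cons]
    cases i with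
    | zero =>
      simp only [List.getElem_cons_zero] at hx
      simp [hx]
    | succ i =>
      simp only [List.getElem_cons_succ] at hx
      have hi' : i < a.length := by simpa using hi
      have h1 := ih ha.2 i hi' hx
      have h2 : x < r := lt_of_lt_of_le hx (ha.1 _ (List.getElem_mem hi'))
      unfold cnt at h1
      simp only [h2, decide_true, if_true]
      omega

theorem cnt_le (a : List ℝ) (ha : a.Pairwise (· ≥ ·)) (i : ℕ) (hi : i < a.length) (x : ℝ)
    (hx : a[i] < x) : cnt a x ≤ i := by
  induction a generalizing i with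
  | nil => simp at hi
  | cons r a ih =>
    rw [List.pairwise_cons] at ha
    unfold cnt
    rw [List.countP_cons]
    cases i with
    | zero =>
      simp only [List.getElem_cons_zero] at hx
      have h1 : a.countP (fun r => decide (x < r)) = 0 := by
        rw [List.countP_eq_zero]
        intro s hs
        have := ha.1 s hs
        simp only [decide_eq_true_eq, not_lt]
        linarith
      rw [h1]
      simp [not_lt.2 hx.le]
    | succ i =>
      simp only [List.getElem_cons_succ] at hx
      have hi' : i < a.length := by simpa using hi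
      have h1 := ih ha.2 i hi' hx
      unfold cnt at h1
      split_ifs <;> omega

theorem exists_between_notMem (l : List ℝ) {u v : ℝ} (h : u < v) : ∃ x, u < x ∧ x < v ∧ x ∉ l := by
  have h1 : (Set.Ioo u v).Infinite := Set.Ioo_infinite h
  obtain ⟨x, hx, hxl⟩ := h1.exists_notMem_finset l.toFinset
  exact ⟨x, hx.1, hx.2, fun hcon => hxl (List.mem_toFinset.2 hcon)⟩

/-- the interlacing chain `⋯ ≤ a_2 ≤ b_2 ≤ a_1 ≤ b_1` -/
theorem chain (a b : List ℝ) (ha : a.Pairwise (· ≥ ·)) (hb : b.Pairwise (· ≥ ·))
    (h : ∀ z : ℂ, 0 < z.im → 0 ≤ (prd b z * conj (prd a z)).im) :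
    (∀ (i : ℕ) (h1 : i < a.length) (h2 : i < b.length), a[i] ≤ b[i]) ∧
      ∀ (i : ℕ) (h1 : i < a.length) (h2 : i + 1 < b.length), b[i + 1] ≤ a[i] := by
  constructor
  · intro i h1 h2
    by_contra hcon
    push Not at hcon
    obtain ⟨x, hx1, hx2, hx3⟩ := exists_between_notMem (a ++ b) hcon
    rw [List.mem_append, not_or] at hx3
    have h3 := cnt_range a b h x hx3.1 hx3.2
    have h4 := cnt_ge a ha i h1 x hx2
    have h5 := cnt_le b hb i h2 x hx1
    omega
  · intro i h1 h2
    by_contra hcon
    push Not at hcon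
    obtain ⟨x, hx1, hx2, hx3⟩ := exists_between_notMem (a ++ b) hcon
    rw [List.mem_append, not_or] at hx3
    have h3 := cnt_range a b h x hx3.1 hx3.2
    have h4 := cnt_ge b hb (i + 1) h2 x hx2
    have h5 := cnt_le a ha i h1 x hx1
    omega

/-- a real polynomial all of whose complex roots are real splits -/
theorem splits_of_real (p : ℝ[X]) (h : ∀ z : ℂ, aeval z p = 0 → z.im = 0) : p.Splits := by
  by_cases hp : p = 0
  · rw [hp]; exact Splits.zero
  refine Splits.of_splits_map (algebraMap ℝ ℂ) (IsAlgClosed.splits _) ?_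
  intro z hz
  rw [mem_roots_map hp, ← aeval_def] at hz
  exact ⟨z.re, Complex.ext rfl (by simpa using (h z hz).symm)⟩

theorem aeval_eq_prd (p : ℝ[X]) (a : List ℝ) (ha : (a : Multiset ℝ) = p.roots) (hs : p.Splits)
    (z : ℂ) : aeval z p = (p.leadingCoeff : ℂ) * prd a z := by
  conv_lhs => rw [hs.eq_prod_roots, ← ha]
  rw [map_mul, aeval_C, Multiset.map_coe, Multiset.prod_coe, map_list_prod, List.map_map]
  congr 1
  unfold prd
  congr 1
  refine List.map_congr_left fun r _ => ?_
  simp

/-- Interlacing from the upper half plane: if `f` and `g` have positive leading coefficients and only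
real roots, listed decreasingly by `a` and `b`, and `Im (g(z) conj (f(z))) ≥ 0` for all `z` in the upper
half plane, then the roots interlace. -/
theorem chain_of_im {f g : ℝ[X]} {a b : List ℝ} (ha : a.Pairwise (· ≥ ·)) (hb : b.Pairwise (· ≥ ·))
    (hfa : (a : Multiset ℝ) = f.roots) (hgb : (b : Multiset ℝ) = g.roots) (hf : f.Splits)
    (hg : g.Splits) (hf0 : 0 < f.leadingCoeff) (hg0 : 0 < g.leadingCoeff)
    (h : ∀ z : ℂ, 0 < z.im → 0 ≤ (aeval z g * conj (aeval z f)).im) :
    (∀ (i : ℕ) (h1 : i < a.length) (h2 : i < b.length), a[i] ≤ b[i]) ∧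
      ∀ (i : ℕ) (h1 : i < a.length) (h2 : i + 1 < b.length), b[i + 1] ≤ a[i] := by
  refine chain a b ha hb fun z hz => ?_
  have h1 := h z hz
  rw [aeval_eq_prd f a hfa hf, aeval_eq_prd g b hgb hg, map_mul, conj_ofReal] at h1
  have h2 : (g.leadingCoeff : ℂ) * prd b z * ((f.leadingCoeff : ℂ) * conj (prd a z)) =
      ((g.leadingCoeff * f.leadingCoeff : ℝ) : ℂ) * (prd b z * conj (prd a z)) := by
    push_cast
    ring
  rw [h2, im_ofReal_mul] at h1
  exact nonneg_of_mul_nonneg_right h1 (mul_pos hg0 hf0)

end Pool.Agent.R137.Interl
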