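import Mathlib

/-!
# A bilinear sector relation on complex numbers

For `z` in the upper half plane, `Rel z u v` says that `v` lies between `u` and `z u` (in the sense of
arguments).  The relation is additive in both arguments.
-/

set_option autoImplicit false

namespace Pool.Agent.R137.Sector

open Complex ComplexConjugate

/-- `Im (v ū) ≥ 0` and `Im (z u v̄) ≥ 0` -/
def Rel (z u v : ℂ) : Prop := 0 ≤ (v * conj u).im ∧ 0 ≤ (z * u * conj v).im

variable {z : ℂ}

theorem Rel.add_left {u u' v : ℂ} (h : Rel z u v) (h' : Rel z u' v) : Rel z (u + u') v := by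
  refine ⟨?_, ?_⟩
  · rw [map_add, mul_add, add_im]
    exact add_nonneg h.1 h'.1
  · rw [mul_add, add_mul, add_im]
    exact add_nonneg h.2 h'.2

theorem Rel.add_right {u v v' : ℂ} (h : Rel z u v) (h' : Rel z u v') : Rel z u (v + v') := by
  refine ⟨?_, ?_⟩
  · rw [add_mul, add_im]
    exact add_nonneg h.1 h'.1
  · rw [map_add, mul_add, add_im]
    exact add_nonneg h.2 h'.2

theorem rel_zero_left (v : ℂ) : Rel z 0 v := by
  simp [Rel]

theorem rel_zero_right (u : ℂ) : Rel z u 0 := by
  simp [Rel]

theorem Rel.sum_left {ι : Type*} {s : Finset ι} {u : ι → ℂ} {v : ℂ} (h : ∀ i ∈ s, Rel z (u i) v) :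
    Rel z (∑ i ∈ s, u i) v := by
  classical
  induction s using Finset.induction_on with
  | empty => exact rel_zero_left v
  | insert a s ha ih =>
    rw [Finset.sum_insert ha]
    exact (h a (Finset.mem_insert_self a s)).add_left
      (ih fun i hi => h i (Finset.mem_insert_of_mem hi))

theorem Rel.sum_right {ι : Type*} {s : Finset ι} {u : ℂ} {v : ι → ℂ} (h : ∀ i ∈ s, Rel z u (v i)) :
    Rel z u (∑ i ∈ s, v i) := by
  classical
  induction s using Finset.induction_on with
  | empty => exact rel_zero_right u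
  | insert a s ha ih =>
    rw [Finset.sum_insert ha]
    exact (h a (Finset.mem_insert_self a s)).add_right
      (ih fun i hi => h i (Finset.mem_insert_of_mem hi))

theorem rel_self (hz : 0 ≤ z.im) (u : ℂ) : Rel z u u := by
  refine ⟨?_, ?_⟩
  · rw [mul_conj, ofReal_im]
  · rw [mul_assoc, mul_conj, im_mul_ofReal]
    exact mul_nonneg hz (normSq_nonneg u)

/-- if `v` is between `u` and `z u` then `z u` is between `v` and `z v` -/
theorem Rel.rot {u v : ℂ} (h : Rel z u v) {c : ℝ} (hc : 0 ≤ c) : Rel z v (c * z * u) := by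
  obtain ⟨h1, h2⟩ := h
  refine ⟨?_, ?_⟩
  · have e : ((c : ℂ) * z * u * conj v).im = c * (z * u * conj v).im := by
      rw [mul_assoc, mul_assoc, im_ofReal_mul, ← mul_assoc]
    rw [e]
    exact mul_nonneg hc h2
  · have e : (z * v * conj ((c : ℂ) * z * u)).im = c * normSq z * (v * conj u).im := by
      have : z * v * conj ((c : ℂ) * z * u) = ((c * normSq z : ℝ) : ℂ) * (v * conj u) := by
        rw [map_mul, map_mul, conj_ofReal, ofReal_mul, normSq_eq_conj_mul_self]
        ring
      rw [this, im_ofReal_mul]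
    rw [e]
    exact mul_nonneg (mul_nonneg hc (normSq_nonneg z)) h1

theorem rel_smul_self (hz : 0 ≤ z.im) {c : ℝ} (hc : 0 ≤ c) (u : ℂ) : Rel z u (c * z * u) :=
  (rel_self hz u).rot hc

/-- multiplying both by the same number preserves the relation -/
theorem Rel.mul {u v : ℂ} (h : Rel z u v) (w : ℂ) : Rel z (w * u) (w * v) := by
  obtain ⟨h1, h2⟩ := h
  refine ⟨?_, ?_⟩
  · have : w * v * conj (w * u) = ((normSq w : ℝ) : ℂ) * (v * conj u) := by
      rw [map_mul, normSq_eq_conj_mul_self]
      ring
    rw [this, im_ofReal_mul]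
    exact mul_nonneg (normSq_nonneg w) h1
  · have : z * (w * u) * conj (w * v) = ((normSq w : ℝ) : ℂ) * (z * u * conj v) := by
      rw [map_mul, normSq_eq_conj_mul_self]
      ring
    rw [this, im_ofReal_mul]
    exact mul_nonneg (normSq_nonneg w) h2

/-- Nonvanishing: if `u ≠ 0`, `Im z > 0` and `v` is between `u` and `z u`, then `u + v ≠ 0`. -/
theorem Rel.add_ne_zero (hz : 0 < z.im) {u v : ℂ} (h : Rel z u v) (hu : u ≠ 0) : u + v ≠ 0 := by
  intro hcon
  have hv : v = - u := by linear_combination hcon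
  have h2 := h.2
  rw [hv, map_neg, mul_neg, neg_im, mul_assoc, mul_conj, im_mul_ofReal] at h2
  have := mul_pos hz (normSq_pos.2 hu)
  linarith

end Pool.Agent.R137.Sector
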