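import Pool.Agent.R137.Words
import Pool.Agent.R137.Sector

/-!
# Run-sorted words and their transfer recursion
-/

set_option autoImplicit false

namespace Pool.Agent.R137.RunSorted

open Pool.Agent.R137.Words Pool.Agent.R137.Sector

variable {α : Type*} [LinearOrder α]

/-- every letter is either larger than its predecessor or smaller than everything after it -/
def Good : List α → Prop
  | [] => True
  | [_] => True
  | a :: b :: w => (a < b ∨ ∀ c ∈ w, b < c) ∧ Good (b :: w)

/-- the first letter is the strict minimum -/
def HM : List α → Prop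
  | [] => True
  | a :: w => ∀ c ∈ w, a < c

/-- concatenations of increasing blocks with increasing minima -/
def RS (w : List α) : Prop :=
  ∃ L : List (Finset α), (∀ A ∈ L, A.Nonempty) ∧ L.Pairwise (fun A B => A.min < B.min) ∧
    w = (L.map (fun A => A.sort)).flatten

theorem good_append (s w : List α) (hs : s.Pairwise (· < ·)) (hw : Good w) (hm : HM w) :
    Good (s ++ w) := by
  induction s with
  | nil => exact hw
  | cons a s ih =>
    rw [List.pairwise_cons] at hs
    have h1 := ih hs.2
    match s, hs, h1 with
    | [], _, h1 =>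
      match w, hw, hm with
      | [], _, _ => trivial
      | b :: w', hw, hm => exact ⟨Or.inr hm, hw⟩
    | b :: s', hs, h1 =>
      exact ⟨Or.inl (hs.1 b (by simp)), h1⟩

theorem sort_cons {A : Finset α} (hA : A.Nonempty) :
    A.sort = A.min' hA :: (A.erase (A.min' hA)).sort := by
  have h1 : insert (A.min' hA) (A.erase (A.min' hA)) = A := Finset.insert_erase (A.min'_mem hA)
  conv_lhs => rw [← h1]
  rw [Finset.sort_insert]
  · intro b hb
    exact A.min'_le b (Finset.mem_of_mem_erase hb)
  · exact Finset.notMem_erase _ _

theorem RS.good {w : List α} (h : RS w) : Good w ∧ HM w := by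
  obtain ⟨L, h1, h2, rfl⟩ := h
  induction L with
  | nil => exact ⟨trivial, trivial⟩
  | cons A L ih =>
    rw [List.pairwise_cons] at h2
    obtain ⟨i1, i2⟩ := ih (fun B hB => h1 B (List.mem_cons_of_mem A hB)) h2.2
    rw [List.map_cons, List.flatten_cons]
    refine ⟨good_append _ _ ?_ i1 i2, ?_⟩
    · exact Finset.sortedLT_sort A |>.pairwise
    · have hA := h1 A (by simp)
      rw [sort_cons hA, List.cons_append]
      intro c hc
      rw [List.mem_append] at hc
      rcases hc with hc | hc
      · rw [Finset.mem_sort, Finset.mem_erase] at hc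
        exact lt_of_le_of_ne (A.min'_le c hc.2) (Ne.symm hc.1)
      · rw [List.mem_flatten] at hc
        obtain ⟨l, hl, hcl⟩ := hc
        rw [List.mem_map] at hl
        obtain ⟨B, hB, rfl⟩ := hl
        rw [Finset.mem_sort] at hcl
        have h3 := h2.1 B hB
        rw [← Finset.coe_min' hA] at h3
        have h4 := lt_of_lt_of_le h3 (Finset.min_le hcl)
        exact WithTop.coe_lt_coe.1 h4

theorem good_decomp (a : α) (w : List α) (h : Good (a :: w)) :
    ∃ (A : Finset α) (L : List (Finset α)), A.Nonempty ∧ (∀ B ∈ L, B.Nonempty) ∧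
      L.Pairwise (fun A B => A.min < B.min) ∧
      a :: w = A.sort ++ (L.map (fun A => A.sort)).flatten := by
  induction w generalizing a with
  | nil => exact ⟨{a}, [], by simp, by simp, by simp, by simp⟩
  | cons b w ih =>
    obtain ⟨h1, h2⟩ := h
    obtain ⟨A, L, hA, hL, hp, he⟩ := ih b h2
    have hb : b = A.min' hA := by
      rw [sort_cons hA, List.cons_append] at he
      exact (List.cons.inj he).1
    by_cases hab : a < b
    · refine ⟨insert a A, L, by simp, hL, hp, ?_⟩
      have hlt : ∀ c ∈ A, a < c := fun c hc => lt_of_lt_of_le hab (hb ▸ A.min'_le c hc)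
      rw [Finset.sort_insert _ (fun c hc => (hlt c hc).le)
        (fun hcon => lt_irrefl a (hlt a hcon)), List.cons_append, ← he]
    · have h3 : ∀ c ∈ w, b < c := h1.resolve_left hab
      refine ⟨{a}, A :: L, by simp, ?_, ?_, ?_⟩
      · intro B hB
        rcases List.mem_cons.1 hB with rfl | hB
        · exact hA
        · exact hL B hB
      · rw [List.pairwise_cons]
        refine ⟨fun B hB => ?_, hp⟩
        have hBn := hL B hB
        rw [← Finset.coe_min' hA, ← Finset.coe_min' hBn, WithTop.coe_lt_coe, ← hb]
        apply h3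
        have h4 : B.min' hBn ∈ b :: w := by
          rw [he, List.mem_append]
          right
          rw [List.mem_flatten]
          exact ⟨B.sort, List.mem_map.2 ⟨B, hB, rfl⟩, (Finset.mem_sort _).2 (B.min'_mem hBn)⟩
        rcases List.mem_cons.1 h4 with h5 | h5
        · exfalso
          -- `b` would be in the first block and in `B`; use that the tail of the word is above `b`
          rw [sort_cons hA, List.cons_append, ← hb] at he
          have h6 := (List.cons.inj he).2
          have h7 : b ∈ w := by
            rw [h6, List.mem_append]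
            right
            rw [List.mem_flatten]
            refine ⟨B.sort, List.mem_map.2 ⟨B, hB, rfl⟩, (Finset.mem_sort _).2 ?_⟩
            rw [← h5]
            exact B.min'_mem hBn
          exact lt_irrefl b (h3 b h7)
        · exact h5
      · rw [Finset.sort_singleton, List.map_cons, List.flatten_cons, List.singleton_append, ← he]

theorem RS_of_good {w : List α} (h : Good w) (hm : HM w) : RS w := by
  match w, h, hm with
  | [], _, _ => exact ⟨[], by simp, by simp, by simp⟩
  | a :: w, h, hm =>
    obtain ⟨A, L, hA, hL, hp, he⟩ := good_decomp a w h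
    refine ⟨A :: L, ?_, ?_, ?_⟩
    · intro B hB
      rcases List.mem_cons.1 hB with rfl | hB
      · exact hA
      · exact hL B hB
    · rw [List.pairwise_cons]
      refine ⟨fun B hB => ?_, hp⟩
      have hBn := hL B hB
      rw [sort_cons hA, List.cons_append] at he
      have ha := (List.cons.inj he).1
      have h6 := (List.cons.inj he).2
      rw [← Finset.coe_min' hA, ← Finset.coe_min' hBn, WithTop.coe_lt_coe, ← ha]
      apply hm
      rw [h6, List.mem_append]
      right
      rw [List.mem_flatten]
      exact ⟨B.sort, List.mem_map.2 ⟨B, hB, rfl⟩, (Finset.mem_sort _).2 (B.min'_mem hBn)⟩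
    · rw [List.map_cons, List.flatten_cons, ← he]

/-- the weight of a word: zero if it is not good -/
def wR {R : Type*} [CommSemiring R] (y : ℕ → R) : List α → R
  | [] => 1
  | [_] => 1
  | a :: b :: w => (if a < b then 1 else if ∀ c ∈ w, b < c then y (w.length + 1) else 0) *
      wR y (b :: w)

open Classical in
theorem wR_eq {R : Type*} [CommSemiring R] (y : ℕ → R) (w : List α) (hw : w.Nodup) :
    wR y w = if Good w then wt y w else 0 := by
  match w, hw with
  | [], _ => simp [wR, Good, wt]
  | [_], _ => simp [wR, Good, wt]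
  | a :: b :: w, hw =>
    have hw' := List.nodup_cons.1 hw
    rw [wR, wR_eq y (b :: w) hw'.2, wt]
    have hab : a ≠ b := fun h => hw'.1 (by simp [h])
    by_cases h1 : Good (b :: w)
    · rw [if_pos h1]
      by_cases h2 : a < b
      · rw [if_pos h2, if_pos (show Good (a :: b :: w) from ⟨Or.inl h2, h1⟩), if_neg (not_lt.2 h2.le)]
      · have h3 : b < a := lt_of_le_of_ne (not_lt.1 h2) hab.symm
        rw [if_neg h2, if_pos h3]
        by_cases h4 : ∀ c ∈ w, b < c
        · rw [if_pos h4, if_pos (show Good (a :: b :: w) from ⟨Or.inr h4, h1⟩)]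
        · rw [if_neg h4, zero_mul, if_neg]
          rintro ⟨h5 | h5, _⟩
          · exact h2 h5
          · exact h4 h5
    · rw [if_neg h1, mul_zero, if_neg (fun h => h1 h.2)]

/-- the transfer recursion -/
def G {R : Type*} [CommSemiring R] (y : ℕ → R) : ℕ → ℕ → R
  | 0, _ => 1
  | n + 1, p => ∑ i ∈ Finset.Ico p (n + 1), G y n i + (if p = 0 then 0 else y (n + 1) * G y n 0)

theorem sum_wR {R : Type*} [CommSemiring R] (y : ℕ → R) (n : ℕ) (V : Finset α) (hV : V.card = n)
    (a : α) (ha : a ∉ V) :
    ∑ w ∈ words n V, wR y (a :: w) = G y n (V.filter (· < a)).card := by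
  induction n generalizing V a with
  | zero => rw [sum_words_zero, G, wR]
  | succ n ih =>
    rw [sum_words_succ, G]
    have h1 : ∀ b ∈ V, ∑ w ∈ words n (V.erase b), wR y (a :: b :: w) =
        (if a < b then 1 else if (V.filter (· < b)).card = 0 then y (n + 1) else 0) *
          G y n (V.filter (· < b)).card := by
      intro b hb
      have hVb : (V.erase b).card = n := by rw [Finset.card_erase_of_mem hb, hV]; rfl
      have h2 := ih (V.erase b) hVb b (Finset.notMem_erase b V)
      have h3 : (V.erase b).filter (· < b) = V.filter (· < b) := by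
        ext x
        simp only [Finset.mem_filter, Finset.mem_erase]
        constructor
        · rintro ⟨⟨_, h⟩, h'⟩
          exact ⟨h, h'⟩
        · rintro ⟨h, h'⟩
          exact ⟨⟨ne_of_lt h', h⟩, h'⟩
      rw [h3] at h2
      rw [← h2, Finset.mul_sum]
      refine Finset.sum_congr rfl fun w hw => ?_
      rw [mem_words n _ hVb] at hw
      rw [wR]
      have hlen : w.length = n := by
        rw [← List.toFinset_card_of_nodup hw.1, hw.2, hVb]
      have h4 : (∀ c ∈ w, b < c) ↔ (V.filter (· < b)).card = 0 := by
        rw [Finset.card_eq_zero, Finset.filter_eq_empty_iff]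
        constructor
        · intro h c hc hcb
          have : c ∈ w := by
            rw [← List.mem_toFinset, hw.2, Finset.mem_erase]
            exact ⟨ne_of_lt hcb, hc⟩
          exact lt_asymm (h c this) hcb
        · intro h c hc
          rw [← List.mem_toFinset, hw.2, Finset.mem_erase] at hc
          exact lt_of_le_of_ne (not_lt.1 (h hc.2)) (Ne.symm hc.1)
      rw [hlen, if_congr h4 rfl rfl]
    rw [Finset.sum_congr rfl h1, ← Finset.sum_filter_add_sum_filter_not V (a < ·)]
    congr 1
    · rw [← hV, ← sum_rank_above V a ha]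
      refine Finset.sum_congr rfl fun b hb => ?_
      rw [if_pos (Finset.mem_filter.1 hb).2, one_mul]
    · have h5 : V.filter (fun b => ¬ a < b) = V.filter (· < a) := by
        refine Finset.filter_congr fun b hb => ?_
        rw [not_lt]
        exact ⟨fun h => lt_of_le_of_ne h (fun h' => ha (h' ▸ hb)), fun h => h.le⟩
      rw [h5]
      have h6 := sum_rank_below V a (fun i => (if i = 0 then y (n + 1) else 0) * G y n i)
      rw [Finset.sum_congr rfl (fun b hb => by
        rw [if_neg (not_lt.2 (Finset.mem_filter.1 hb).2.le)]), h6]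
      generalize (V.filter (· < a)).card = r
      cases r with
      | zero => simp
      | succ r =>
        rw [Finset.sum_range_succ', if_pos rfl, if_neg (Nat.succ_ne_zero r)]
        rw [Finset.sum_eq_zero, zero_add]
        intro i _
        rw [if_neg (Nat.succ_ne_zero i), zero_mul]

/-- the relation is preserved by the recursion -/
theorem G_rel {z : ℂ} (hz : 0 ≤ z.im) (μ : ℕ → ℝ) (hμ : ∀ k, 0 ≤ μ k) (n : ℕ) :
    ∀ p q, p ≤ q → q ≤ n → Rel z (G (fun k => (μ k : ℂ) * z) n p) (G (fun k => (μ k : ℂ) * z) n q) := by
  induction n with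
  | zero =>
    intro p q _ _
    exact rel_self hz _
  | succ n ih =>
    intro p q hpq hq
    rcases eq_or_lt_of_le hpq with rfl | hlt
    · exact rel_self hz _
    rw [G, G, if_neg (by omega : q ≠ 0)]
    set y := (fun k => (μ k : ℂ) * z) with hy
    have hsplit : ∑ i ∈ Finset.Ico p (n + 1), G y n i =
        ∑ i ∈ Finset.Ico p q, G y n i + ∑ i ∈ Finset.Ico q (n + 1), G y n i :=
      (Finset.sum_Ico_consecutive _ hpq hq).symm
    have hg : ∀ i, i ≤ n → Rel z (G y n i) (y (n + 1) * G y n 0) := by
      intro i hi
      exact (ih 0 i (Nat.zero_le i) hi).rot (hμ (n + 1))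
    have h1 : Rel z (∑ i ∈ Finset.Ico p q, G y n i)
        (∑ i ∈ Finset.Ico q (n + 1), G y n i + y (n + 1) * G y n 0) := by
      refine Rel.sum_left fun i hi => ?_
      rw [Finset.mem_Ico] at hi
      refine Rel.add_right (Rel.sum_right fun j hj => ?_) (hg i (by omega))
      rw [Finset.mem_Ico] at hj
      exact ih i j (by omega) (by omega)
    rw [hsplit]
    by_cases hp : p = 0
    · rw [if_pos hp, add_zero]
      refine Rel.add_left h1 ?_
      refine Rel.add_right (rel_self hz _) ?_
      refine Rel.sum_left fun i hi => hg i ?_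
      rw [Finset.mem_Ico] at hi
      omega
    · rw [if_neg hp, add_assoc]
      exact Rel.add_left h1 (rel_self hz _)

theorem G_ne_zero {z : ℂ} (hz : 0 < z.im) (μ : ℕ → ℝ) (hμ : ∀ k, 0 ≤ μ k) (n : ℕ) :
    G (fun k => (μ k : ℂ) * z) n 0 ≠ 0 := by
  induction n with
  | zero =>
    rw [G]
    exact one_ne_zero
  | succ n ih =>
    rw [G, if_pos rfl, add_zero, Finset.sum_eq_sum_Ico_succ_bot (Nat.succ_pos n)]
    refine Rel.add_ne_zero hz (Rel.sum_right fun i hi => ?_) ih
    rw [Finset.mem_Ico] at hi
    exact G_rel hz.le μ hμ n 0 i (Nat.zero_le i) (by omega)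

end Pool.Agent.R137.RunSorted
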