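import Mathlib

/-!
# Arrangements of a finite set as lists, and sums over permutations
-/

set_option autoImplicit false

namespace Pool.Agent.R137.Words

variable {α : Type*} [DecidableEq α]

/-- the arrangements of a set `V` with `n` elements -/
def words : ℕ → Finset α → Finset (List α)
  | 0, _ => {[]}
  | n + 1, V => V.biUnion fun b => (words n (V.erase b)).image (List.cons b)

theorem mem_words (n : ℕ) (V : Finset α) (hV : V.card = n) (w : List α) :
    w ∈ words n V ↔ w.Nodup ∧ w.toFinset = V := by
  induction n generalizing V w with
  | zero =>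
    rw [Finset.card_eq_zero] at hV
    subst hV
    simp only [words, Finset.mem_singleton]
    constructor
    · rintro rfl
      simp
    · rintro ⟨_, h⟩
      exact List.toFinset_eq_empty_iff w |>.1 h
  | succ n ih =>
    simp only [words, Finset.mem_biUnion, Finset.mem_image]
    constructor
    · rintro ⟨b, hb, w', hw', rfl⟩
      rw [ih (V.erase b) (by rw [Finset.card_erase_of_mem hb, hV]; rfl)] at hw'
      obtain ⟨h1, h2⟩ := hw'
      constructor
      · rw [List.nodup_cons]
        refine ⟨?_, h1⟩
        intro hcon
        have : b ∈ w'.toFinset := List.mem_toFinset.2 hcon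
        rw [h2] at this
        exact Finset.notMem_erase b V this
      · rw [List.toFinset_cons, h2, Finset.insert_erase hb]
    · rintro ⟨h1, h2⟩
      match w, h1, h2 with
      | [], _, h2 =>
        exfalso
        rw [← h2] at hV
        simp at hV
      | b :: w', h1, h2 =>
        rw [List.nodup_cons] at h1
        have hb : b ∈ V := by rw [← h2]; simp
        refine ⟨b, hb, w', ?_, rfl⟩
        rw [ih (V.erase b) (by rw [Finset.card_erase_of_mem hb, hV]; rfl)]
        refine ⟨h1.2, ?_⟩
        rw [← h2, List.toFinset_cons, Finset.erase_insert]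
        rw [List.mem_toFinset]
        exact h1.1

theorem sum_words_succ {M : Type*} [AddCommMonoid M] (n : ℕ) (V : Finset α) (F : List α → M) :
    ∑ w ∈ words (n + 1) V, F w = ∑ b ∈ V, ∑ w ∈ words n (V.erase b), F (b :: w) := by
  rw [words, Finset.sum_biUnion]
  · refine Finset.sum_congr rfl fun b _ => ?_
    rw [Finset.sum_image]
    intro x _ y _ hxy
    exact (List.cons.inj hxy).2
  · intro b _ c _ hbc
    rw [Function.onFun, Finset.disjoint_left]
    rintro w hw hw'
    obtain ⟨x, _, rfl⟩ := Finset.mem_image.1 hw
    obtain ⟨y, _, hy⟩ := Finset.mem_image.1 hw'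
    exact hbc (List.cons.inj hy).1.symm

theorem sum_words_zero {M : Type*} [AddCommMonoid M] (V : Finset α) (F : List α → M) :
    ∑ w ∈ words 0 V, F w = F [] := by
  rw [words, Finset.sum_singleton]

/-- sums over permutations are sums over arrangements -/
theorem sum_perm {M : Type*} [AddCommMonoid M] (n : ℕ) (F : List (Fin n) → M) :
    ∑ π : Equiv.Perm (Fin n), F (List.ofFn π) = ∑ w ∈ words n (Finset.univ : Finset (Fin n)), F w := by
  refine Finset.sum_bij (fun π _ => List.ofFn π) ?_ ?_ ?_ ?_
  · intro π _
    rw [mem_words n _ (by simp)]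
    refine ⟨List.nodup_ofFn.2 π.injective, ?_⟩
    ext x
    simp only [List.mem_toFinset, List.mem_ofFn, Finset.mem_univ, iff_true]
    exact π.surjective x
  · intro π _ σ _ h
    exact Equiv.coe_fn_injective (List.ofFn_injective h)
  · intro w hw
    rw [mem_words n _ (by simp)] at hw
    obtain ⟨h1, h2⟩ := hw
    have hlen : w.length = n := by
      rw [← List.toFinset_card_of_nodup h1, h2]
      simp
    let f : Fin n → Fin n := fun i => w.get (i.cast hlen.symm)
    have hf : Function.Injective f := by
      intro i j hij
      have := List.nodup_iff_injective_get.1 h1 hij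
      exact Fin.ext (by simpa using congrArg Fin.val this)
    refine ⟨Equiv.ofBijective f (Finite.injective_iff_bijective.1 hf), Finset.mem_univ _, ?_⟩
    apply List.ext_get
    · simp [hlen]
    · intro k hk1 hk2
      simp [f]
  · intro π _
    rfl

/-- The weight of a word: every descent contributes `y` of the length of the word after it. -/
def wt {α R : Type*} [LinearOrder α] [CommSemiring R] (y : ℕ → R) : List α → R
  | [] => 1
  | [_] => 1
  | a :: b :: w => (if b < a then y (w.length + 1) else 1) * wt y (b :: w)

theorem wt_eq {α R : Type*} [LinearOrder α] [CommSemiring R] (y : ℕ → R) (d : α) (w : List α) :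
    wt y w = ∏ k ∈ Finset.range (w.length - 1),
      (if w.getD (k + 1) d < w.getD k d then y (w.length - 1 - k) else 1) := by
  match w with
  | [] => simp [wt]
  | [_] => simp [wt]
  | a :: b :: w =>
    rw [wt, wt_eq y d (b :: w)]
    simp only [List.length_cons, Nat.add_sub_cancel]
    rw [Finset.prod_range_succ', mul_comm]
    congr 1
    refine Finset.prod_congr rfl fun k hk => ?_
    rw [Finset.mem_range] at hk
    rw [List.getD_cons_succ (x := a), List.getD_cons_succ (x := a)]
    have h : w.length + 1 - (k + 1) = w.length - k := by omega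
    rw [h]

/-- rank sums: summing over the elements of `V` by their rank -/
theorem sum_rank {α M : Type*} [LinearOrder α] [AddCommMonoid M] (V : Finset α) (h : ℕ → M) :
    ∑ b ∈ V, h (V.filter (· < b)).card = ∑ i ∈ Finset.range V.card, h i := by
  induction V using Finset.induction_on_max with
  | empty => simp
  | insert a s hs ih =>
    have ha : a ∉ s := fun hcon => lt_irrefl a (hs a hcon)
    rw [Finset.sum_insert ha, Finset.card_insert_of_notMem ha, Finset.sum_range_succ, ← ih, add_comm]
    congr 1
    · refine Finset.sum_congr rfl fun b hb => ?_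
      congr 2
      ext x
      simp only [Finset.mem_filter, Finset.mem_insert]
      constructor
      · rintro ⟨rfl | h1, h2⟩
        · exact absurd (hs b hb) (not_lt.2 h2.le)
        · exact ⟨h1, h2⟩
      · rintro ⟨h1, h2⟩
        exact ⟨Or.inr h1, h2⟩
    · congr 2
      ext x
      simp only [Finset.mem_filter, Finset.mem_insert]
      constructor
      · rintro ⟨rfl | h1, h2⟩
        · exact absurd h2 (lt_irrefl _)
        · exact h1
      · intro h1
        exact ⟨Or.inr h1, hs x h1⟩

/-- the same for the elements above a threshold `a ∉ V` -/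
theorem sum_rank_above {α M : Type*} [LinearOrder α] [AddCommMonoid M] (V : Finset α) (a : α)
    (ha : a ∉ V) (h : ℕ → M) :
    ∑ b ∈ V.filter (a < ·), h (V.filter (· < b)).card =
      ∑ i ∈ Finset.Ico (V.filter (· < a)).card V.card, h i := by
  have h1 := sum_rank V (fun i => if (V.filter (· < a)).card ≤ i then h i else 0)
  have h2 : ∀ b ∈ V, (a < b ↔ (V.filter (· < a)).card ≤ (V.filter (· < b)).card) := by
    intro b hb
    constructor
    · intro hab
      exact Finset.card_le_card (fun x hx => by
        rw [Finset.mem_filter] at hx ⊢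
        exact ⟨hx.1, hx.2.trans hab⟩)
    · intro hle
      by_contra hcon
      have hba : b < a := lt_of_le_of_ne (not_lt.1 hcon) (fun h => ha (h ▸ hb))
      have : (V.filter (· < b)).card < (V.filter (· < a)).card := by
        apply Finset.card_lt_card
        rw [Finset.ssubset_iff]
        refine ⟨b, by simp, ?_⟩
        intro x hx
        rw [Finset.mem_insert, Finset.mem_filter] at hx
        rw [Finset.mem_filter]
        rcases hx with rfl | hx
        · exact ⟨hb, hba⟩
        · exact ⟨hx.1, hx.2.trans hba⟩
      omega
  rw [Finset.sum_filter]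
  rw [Finset.sum_congr rfl (fun b hb => by rw [if_congr (h2 b hb) rfl rfl])]
  rw [h1, ← Finset.sum_filter]
  refine Finset.sum_congr ?_ fun _ _ => rfl
  ext i
  simp only [Finset.mem_filter, Finset.mem_range, Finset.mem_Ico]
  tauto

/-- the same for the elements below a threshold `a ∉ V` -/
theorem sum_rank_below {α M : Type*} [LinearOrder α] [AddCommMonoid M] (V : Finset α) (a : α)
    (h : ℕ → M) :
    ∑ b ∈ V.filter (· < a), h (V.filter (· < b)).card =
      ∑ i ∈ Finset.range (V.filter (· < a)).card, h i := by
  rw [← sum_rank (V.filter (· < a)) h]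
  refine Finset.sum_congr rfl fun b hb => ?_
  congr 2
  ext x
  simp only [Finset.mem_filter]
  rw [Finset.mem_filter] at hb
  constructor
  · rintro ⟨h1, h2⟩
    exact ⟨⟨h1, h2.trans hb.2⟩, h2⟩
  · rintro ⟨⟨h1, _⟩, h2⟩
    exact ⟨h1, h2⟩

end Pool.Agent.R137.Words
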